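import Pool.Agent.V7H62.DH.Spec3

/-!
# Algebraic independence of the truncated zeta values from the linear independence of the truncated
multiple zeta values: the product of one-letter words is a sum of words (quasi-shuffles)
-/

set_option autoImplicit false

open Filter Finset

namespace Pool.Agent.V7H89.DH

open Pool.Agent.V7H62.DH

/-- the quasi-shuffle of a letter with a word -/
def qsh (n : ℕ) : List ℕ → List (List ℕ)
  | [] => [[n]]
  | m :: v => (n :: m :: v) :: ((n + m) :: v) :: (qsh n v).map (m :: ·)

/-- the quasi-shuffle of the letters of a list -/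
def E : List ℕ → List (List ℕ)
  | [] => [[]]
  | n :: l => (E l).flatMap (qsh n)

lemma z_succ (n : ℕ) (w : List ℕ) (N : ℕ) :
    z (n :: w) (N + 1) = z (n :: w) N + z w N / ((N : ℝ) + 1) ^ n := by
  simp [z, sum_range_succ]

lemma z_zero (n : ℕ) (w : List ℕ) : z (n :: w) 0 = 0 := by simp [z]

lemma map_cons_zero (m : ℕ) (L : List (List ℕ)) :
    ((L.map (m :: ·)).map (fun u => z u 0)).sum = 0 := by
  induction L with
  | nil => simp
  | cons a L ih =>
    simp only [List.map_cons, List.sum_cons]
    rw [ih, z_zero, add_zero]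

lemma map_cons_succ (m N : ℕ) (L : List (List ℕ)) :
    ((L.map (m :: ·)).map (fun u => z u (N + 1))).sum =
      ((L.map (m :: ·)).map (fun u => z u N)).sum +
        (L.map (fun u => z u N)).sum / ((N : ℝ) + 1) ^ m := by
  induction L with
  | nil => simp
  | cons a L ih =>
    simp only [List.map_cons, List.sum_cons]
    rw [ih, z_succ]
    ring

lemma prod_z (n : ℕ) (w : List ℕ) :
    ∀ N : ℕ, z [n] N * z w N = ((qsh n w).map (fun v => z v N)).sum := by
  induction w with
  | nil => intro N; simp [qsh, z]
  | cons m v ih =>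
    intro N
    induction N with
    | zero =>
      have h := map_cons_zero m (qsh n v)
      simp only [qsh, List.map_cons, List.sum_cons, z_zero, zero_mul]
      rw [h]; simp
    | succ N ihN =>
      have h := map_cons_succ m N (qsh n v)
      simp only [qsh, List.map_cons, List.sum_cons] at ihN ⊢
      rw [h, z_succ n [], z_succ m v, z_succ n (m :: v), z_succ (n + m) v, ← ih N]
      have h0 : z ([] : List ℕ) N = 1 := by simp [z]
      rw [h0, pow_add]
      generalize ((N : ℝ) + 1) ^ n = p
      generalize ((N : ℝ) + 1) ^ m = q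
      linear_combination ihN

lemma qsh_mem (n : ℕ) (w : List ℕ) : ∀ u ∈ qsh n w, u.length ≤ w.length + 1 ∧
    (u.length = w.length + 1 → u.Perm (n :: w)) ∧
    (1 ≤ n → (∀ k ∈ w, 1 ≤ k) → ∀ k ∈ u, 1 ≤ k) := by
  induction w with
  | nil =>
    intro u hu
    simp only [qsh, List.mem_singleton] at hu
    subst hu
    refine ⟨le_rfl, fun _ => List.Perm.refl _, fun h1 _ k hk => ?_⟩
    rw [List.mem_singleton] at hk
    omega
  | cons m v ih =>
    intro u hu
    simp only [qsh, List.mem_cons, List.mem_map] at hu
    rcases hu with rfl | rfl | ⟨u', hu', rfl⟩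
    · refine ⟨le_rfl, fun _ => List.Perm.refl _, fun h1 h2 k hk => ?_⟩
      rcases List.mem_cons.mp hk with rfl | hk
      · exact h1
      · exact h2 k hk
    · refine ⟨by simp, fun h => ?_, fun h1 h2 k hk => ?_⟩
      · simp at h
      · rcases List.mem_cons.mp hk with rfl | hk
        · omega
        · exact h2 k (List.mem_cons_of_mem _ hk)
    · obtain ⟨i1, i2, i3⟩ := ih u' hu'
      refine ⟨by simp only [List.length_cons]; omega, fun h => ?_, fun h1 h2 k hk => ?_⟩
      · have h' : u'.length = v.length + 1 := by simpa using h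
        exact ((i2 h').cons m).trans (List.Perm.swap n m v)
      · rcases List.mem_cons.mp hk with rfl | hk
        · exact h2 k List.mem_cons_self
        · exact i3 h1 (fun j hj => h2 j (List.mem_cons_of_mem _ hj)) k hk

lemma E_mem (l : List ℕ) : ∀ u ∈ E l, u.length ≤ l.length ∧ (u.length = l.length → u.Perm l) ∧
    ((∀ k ∈ l, 1 ≤ k) → ∀ k ∈ u, 1 ≤ k) := by
  induction l with
  | nil =>
    intro u hu
    simp only [E, List.mem_singleton] at hu
    subst hu
    simp
  | cons n l ih =>
    intro u hu
    simp only [E, List.mem_flatMap] at hu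
    obtain ⟨w, hw, hu⟩ := hu
    obtain ⟨i1, i2, i3⟩ := ih w hw
    obtain ⟨j1, j2, j3⟩ := qsh_mem n w u hu
    refine ⟨?_, fun h => ?_, fun h => ?_⟩
    · simp only [List.length_cons]; omega
    · simp only [List.length_cons] at h
      have h1 : w.length = l.length := by omega
      exact (j2 (by omega)).trans ((i2 h1).cons n)
    · exact j3 (h n List.mem_cons_self) (i3 fun k hk => h k (List.mem_cons_of_mem _ hk))

lemma E_self (l : List ℕ) : l ∈ E l := by
  induction l with
  | nil => simp [E]
  | cons n l ih =>
    simp only [E, List.mem_flatMap]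
    refine ⟨l, ih, ?_⟩
    cases l with
    | nil => simp [qsh]
    | cons m v => simp [qsh]

lemma flat_z (n N : ℕ) (L : List (List ℕ)) : ((L.flatMap (qsh n)).map (fun u => z u N)).sum =
    z [n] N * (L.map (fun u => z u N)).sum := by
  induction L with
  | nil => simp
  | cons a L ih =>
    rw [List.flatMap_cons, List.map_append, List.sum_append, ih, List.map_cons, List.sum_cons,
      ← prod_z, mul_add]

lemma E_prod (l : List ℕ) (N : ℕ) :
    (l.map (fun n => z [n] N)).prod = ((E l).map (fun w => z w N)).sum := by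
  induction l with
  | nil => simp [E, z]
  | cons n l ih => rw [List.map_cons, List.prod_cons, ih, E, flat_z]

/-- the word of a monomial -/
noncomputable def L (m : ℕ →₀ ℕ) : List ℕ := ((Finsupp.toMultiset m).toList).map (· + 1)

lemma L_pos (m : ℕ →₀ ℕ) : ∀ k ∈ L m, 1 ≤ k := by
  intro k hk
  obtain ⟨j, -, rfl⟩ := List.mem_map.mp hk
  omega

lemma L_prod (m : ℕ →₀ ℕ) (f : ℕ → ℝ) : ((L m).map f).prod = ∏ j ∈ m.support, f (j + 1) ^ m j := by
  unfold L
  rw [List.map_map]
  have h : (((Finsupp.toMultiset m).toList.map (f ∘ (· + 1))).prod) =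
      ((Finsupp.toMultiset m).map (f ∘ (· + 1))).prod := by
    conv_rhs => rw [← Multiset.coe_toList (Finsupp.toMultiset m)]
    rw [Multiset.map_coe, Multiset.prod_coe]
  rw [h, Finset.prod_multiset_map_count, Finsupp.toFinset_toMultiset]
  refine prod_congr rfl fun j _ => ?_
  rw [Finsupp.count_toMultiset]
  rfl

lemma L_inj (m m' : ℕ →₀ ℕ) (h : (L m).Perm (L m')) : m = m' := by
  have h1 : ((L m : List ℕ) : Multiset ℕ) = (L m' : List ℕ) := Multiset.coe_eq_coe.mpr h
  unfold L at h1
  rw [← Multiset.map_coe, ← Multiset.map_coe, Multiset.coe_toList, Multiset.coe_toList] at h1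
  have h2 := congrArg Multiset.toFinsupp (Multiset.map_injective (add_left_injective 1) h1)
  rwa [Finsupp.toMultiset_toFinsupp, Finsupp.toMultiset_toFinsupp] at h2

lemma count_sum (A : List (List ℕ)) (S : Finset (List ℕ)) (hS : A.toFinset ⊆ S) (f : List ℕ → ℝ) :
    ∑ w ∈ S, (A.count w : ℝ) * f w = (A.map f).sum := by
  rw [Finset.sum_list_map_count]
  rw [← Finset.sum_subset hS]
  · refine sum_congr rfl fun w _ => ?_
    rw [nsmul_eq_mul]
    congr!
  · intro w _ hw
    have h1 : w ∉ A := fun h => hw (List.mem_toFinset.mpr h)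
    rw [List.count_eq_zero_of_not_mem h1]
    simp

theorem t_ALG : S_ALG := by
  intro hind P hP
  set Q := MvPolynomial.optionEquivRight ℝ ℕ P with hQ
  suffices hQ0 : Q = 0 by
    apply (MvPolynomial.optionEquivRight ℝ ℕ).injective
    rw [map_zero]
    exact hQ0
  have hev : ∀ N : ℕ, MvPolynomial.eval (pv N) P =
      ∑ m ∈ Q.support, (Q.coeff m).eval (N : ℝ) * ∏ j ∈ m.support, z [j + 1] N ^ m j := by
    intro N
    have h1 : ((MvPolynomial.eval₂Hom (Polynomial.evalRingHom (N : ℝ))
        (fun j => z [j + 1] N)).comp (MvPolynomial.optionEquivRight ℝ ℕ : _ →+* _)) =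
        MvPolynomial.eval (pv N) := by
      apply MvPolynomial.ringHom_ext
      · intro r
        simp
      · intro i
        cases i with
        | none => simp [pv]
        | some j => simp [pv]
    have h2 := RingHom.congr_fun h1 P
    rw [← h2]
    change MvPolynomial.eval₂Hom _ _ Q = _
    rw [MvPolynomial.coe_eval₂Hom, MvPolynomial.eval₂_eq]
    rfl
  by_contra hne
  obtain ⟨m, hm, hmax⟩ := exists_max_image Q.support (fun m => (L m).length)
    (MvPolynomial.support_nonempty.mpr hne)
  have h0 := hind (Q.support.biUnion fun m => (E (L m)).toFinset)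
    (by
      intro w hw
      obtain ⟨m, -, hw⟩ := mem_biUnion.mp hw
      exact (E_mem (L m) w (List.mem_toFinset.mp hw)).2.2 (L_pos m))
    (fun w => ∑ m ∈ Q.support, Polynomial.C ((E (L m)).count w : ℝ) * Q.coeff m)
    (by
      filter_upwards [hP] with N hN
      rw [hev N] at hN
      rw [← hN]
      simp only [Polynomial.eval_finsetSum, Polynomial.eval_mul, Polynomial.eval_C, sum_mul]
      rw [sum_comm]
      refine sum_congr rfl fun m hm => ?_
      rw [← L_prod m (fun n => z [n] N), E_prod,
        ← count_sum (E (L m)) (Q.support.biUnion fun m => (E (L m)).toFinset)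
          (fun w hw => mem_biUnion.mpr ⟨m, hm, hw⟩) (fun w => z w N), mul_sum]
      exact sum_congr rfl fun w _ => by ring)
    (L m) (mem_biUnion.mpr ⟨m, hm, List.mem_toFinset.mpr (E_self (L m))⟩)
  rw [sum_eq_single m] at h0
  · rcases mul_eq_zero.mp h0 with h | h
    · rw [Polynomial.C_eq_zero, Nat.cast_eq_zero] at h
      exact (List.count_pos_iff.mpr (E_self (L m))).ne' h
    · exact MvPolynomial.mem_support_iff.mp hm h
  · intro m' hm' hne'
    have h1 : L m ∉ E (L m') := by
      intro h1
      obtain ⟨i1, i2, -⟩ := E_mem (L m') (L m) h1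
      have h2 := hmax m' hm'
      exact hne' (L_inj m m' (i2 (le_antisymm i1 h2))).symm
    rw [List.count_eq_zero_of_not_mem h1]
    simp
  · intro h
    exact absurd hm h

end Pool.Agent.V7H89.DH
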